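import Pool.Agent.L0h32.LT2.Stm

/-!
# Amplification

The main result is `t_AMP : S_AMP`.
-/

set_option autoImplicit false

namespace Pool.Agent.L0h90.LT2

open Finset Pool.Agent.L0h32.LT Pool.Agent.L0h32.LT2

open Classical in
/-- the weight of one run -/
noncomputable def yw {Ω X : Type} (c : Ω → X → Prop) (ω : Ω) (x : X) : ℝ :=
  if c ω x then 5 / 7 else 7 / 5

lemma yw_pos {Ω X : Type} (c : Ω → X → Prop) (ω : Ω) (x : X) : 0 < yw c ω x := by
  unfold yw
  split_ifs <;> norm_num

open Classical in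
lemma sum_yw {Ω X : Type} [Fintype Ω] (c : Ω → X → Prop) (x : X)
    (h : 2 * Fintype.card Ω ≤ 3 * (univ.filter fun ω => c ω x).card) :
    ∑ ω, yw c ω x ≤ 19 / 20 * Fintype.card Ω := by
  have h1 : ∑ ω, yw c ω x = ∑ ω : Ω, (7 / 5 : ℝ) - ∑ ω, (if c ω x then (24 / 35 : ℝ) else 0) := by
    rw [← sum_sub_distrib]
    refine sum_congr rfl fun ω _ => ?_
    unfold yw
    split_ifs <;> norm_num
  have h2 : ∑ ω, (if c ω x then (24 / 35 : ℝ) else 0) =
      ((univ.filter fun ω => c ω x).card : ℝ) * (24 / 35) := by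
    rw [← sum_filter, sum_const, nsmul_eq_mul]
  have h3 : ∑ ω : Ω, (7 / 5 : ℝ) = Fintype.card Ω * (7 / 5) := by
    rw [sum_const, card_univ, nsmul_eq_mul]
  have h4 : (2 : ℝ) * Fintype.card Ω ≤ 3 * ((univ.filter fun ω => c ω x).card : ℝ) := by
    exact_mod_cast h
  have h5 : (0 : ℝ) ≤ Fintype.card Ω := Nat.cast_nonneg _
  rw [h1, h2, h3]
  linarith

open Classical in
lemma prod_yw {Ω X : Type} (c : Ω → X → Prop) {r : ℕ} (w : Fin r → Ω) (x : X)
    (h : 2 * (univ.filter fun i => c (w i) x).card ≤ r) : 1 ≤ ∏ i, yw c (w i) x := by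
  have h1 : ∏ i, yw c (w i) x = (5 / 7 : ℝ) ^ (univ.filter fun i => c (w i) x).card *
      (7 / 5) ^ (univ.filter fun i => ¬ c (w i) x).card := by
    unfold yw
    rw [prod_ite, prod_const, prod_const]
  have h2 := card_filter_add_card_filter_not (s := (univ : Finset (Fin r))) (fun i => c (w i) x)
  rw [card_univ, Fintype.card_fin] at h2
  obtain ⟨d, hd⟩ : ∃ d, (univ.filter fun i => ¬ c (w i) x).card =
      (univ.filter fun i => c (w i) x).card + d :=
    Nat.exists_eq_add_of_le (by omega)
  rw [h1, hd, pow_add, ← mul_assoc, ← mul_pow]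
  have h3 : (5 / 7 : ℝ) * (7 / 5) = 1 := by norm_num
  rw [h3, one_pow, one_mul]
  exact one_le_pow₀ (by norm_num)

/-- **Amplification** -/
theorem t_AMP : S_AMP := by
  classical
  intro Ω X _ _ _ c hc r
  by_contra hcon
  push Not at hcon
  have hΩ : (0 : ℝ) < Fintype.card Ω := by exact_mod_cast Fintype.card_pos
  -- the sum over all choices
  have h1 : ∑ w : Fin r → Ω, ((univ.filter fun x => 2 * (univ.filter fun i =>
      c (w i) x).card ≤ r).card : ℝ) ≤ (19 / 20 * Fintype.card Ω) ^ r * Fintype.card X := by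
    calc ∑ w : Fin r → Ω, ((univ.filter fun x => 2 * (univ.filter fun i =>
          c (w i) x).card ≤ r).card : ℝ)
        ≤ ∑ w : Fin r → Ω, ∑ x, ∏ i, yw c (w i) x := by
          refine sum_le_sum fun w _ => ?_
          rw [card_filter]
          push_cast
          refine sum_le_sum fun x _ => ?_
          split_ifs with h
          · exact prod_yw c w x h
          · exact prod_nonneg fun i _ => (yw_pos _ _ _).le
      _ = ∑ x, (∑ ω, yw c ω x) ^ r := by
          rw [sum_comm]
          refine sum_congr rfl fun x _ => ?_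
          have h := Finset.prod_univ_sum (fun _ : Fin r => (univ : Finset Ω))
            (fun _ ω => yw c ω x)
          rw [Finset.prod_const, card_univ, Fintype.card_fin, Fintype.piFinset_univ] at h
          exact h.symm
      _ ≤ ∑ _x : X, (19 / 20 * (Fintype.card Ω : ℝ)) ^ r := by
          refine sum_le_sum fun x _ => ?_
          exact pow_le_pow_left₀ (sum_nonneg fun ω _ => (yw_pos _ _ _).le) (sum_yw c x (hc x)) r
      _ = _ := by
          rw [sum_const, card_univ, nsmul_eq_mul, mul_comm]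
  have h2 : ∑ _w : Fin r → Ω, (19 / 20 : ℝ) ^ r * Fintype.card X <
      ∑ w : Fin r → Ω, ((univ.filter fun x => 2 * (univ.filter fun i =>
        c (w i) x).card ≤ r).card : ℝ) :=
    sum_lt_sum_of_nonempty univ_nonempty fun w _ => hcon w
  have h3 : ∑ _w : Fin r → Ω, (19 / 20 : ℝ) ^ r * Fintype.card X =
      (19 / 20 * Fintype.card Ω) ^ r * Fintype.card X := by
    rw [sum_const, card_univ, Fintype.card_fun, Fintype.card_fin, nsmul_eq_mul, mul_pow]
    push_cast
    ring
  linarith

end Pool.Agent.L0h90.LT2
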