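import Pool.Agent.L0h32.LT2.Stm

/-!
# The one-pass nondeterministic program

The main result is `t_NON : S_NON`.
-/

set_option autoImplicit false

namespace Pool.Agent.L0h90.LT2

open Finset Pool.Agent.L0h32.LT Pool.Agent.L0h32.LT2

/-- the step of the program -/
def stp {n N ρ : ℕ} {F : Type} [Field F] (M : Fin n → (Fin N × Fin 6 × Fin ρ → ZMod 2))
    (e : (Fin ρ → ZMod 2) → F) (i : Fin n) (v : Fin N × (Fin 6 → F)) (b : Bool) :
    Fin N × (Fin 6 → F) :=
  (v.1, fun c => v.2 c + (if b = true then e (fun a => M i (v.1, c, a)) else 0))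

lemma fold_stp {n N ρ : ℕ} {F : Type} [Field F] (M : Fin n → (Fin N × Fin 6 × Fin ρ → ZMod 2))
    (e : (Fin ρ → ZMod 2) → F) (x : Inp n) (l : List (Fin n)) (j : Fin N) (v : Fin 6 → F) :
    l.foldl (fun v i => stp M e i v (x i)) (j, v) =
      (j, fun c => v c + (l.map (fun i => if x i = true then e (fun a => M i (j, c, a))
        else 0)).sum) := by
  induction l generalizing v with
  | nil => simp
  | cons i l ih =>
    rw [List.foldl_cons]
    have h : stp M e i (j, v) (x i) =
        (j, fun c => v c + (if x i = true then e (fun a => M i (j, c, a)) else 0)) := rfl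
    rw [h, ih]
    refine Prod.ext rfl (funext fun c => ?_)
    simp only [List.map_cons, List.sum_cons, add_assoc]

lemma fold_blk {n N ρ : ℕ} {F : Type} [Field F] (M : Fin n → (Fin N × Fin 6 × Fin ρ → ZMod 2))
    (e : (Fin ρ → ZMod 2) → F) (x : Inp n) (j : Fin N) :
    (List.finRange n).foldl (fun v i => stp M e i v (x i)) (j, fun _ => 0) =
      (j, blk M e x j) := by
  rw [fold_stp]
  refine Prod.ext rfl (funext fun c => ?_)
  simp only [zero_add]
  unfold blk
  rw [← List.ofFn_eq_map, List.sum_ofFn]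

/-- **Guessing** -/
theorem t_NON : S_NON := by
  intro n N ρ F _ _ e M hρ hF hN
  have hN2 : N = 2 ^ (ρ - 2) := by
    have h1 : 4 * N = 2 ^ ρ := hN.symm.trans hF
    have h2 : 2 ^ ρ = 4 * 2 ^ (ρ - 2) := by
      obtain ⟨m, rfl⟩ := Nat.exists_eq_add_of_le hρ
      rw [pow_add, Nat.add_sub_cancel_left]
      norm_num
    omega
  have hc : Fintype.card (Fin (ρ - 2) → Bool) = Fintype.card (Fin N) := by
    rw [Fintype.card_fun, Fintype.card_bool, Fintype.card_fin, Fintype.card_fin, hN2]
  let g : (Fin (ρ - 2) → Bool) ≃ Fin N := Fintype.equivOfCardEq hc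
  refine ⟨Fin N × (Fin 6 → F), inferInstance, fun ω => (g ω, fun _ => 0), stp M e,
    fun v => qf v.2 = 0, ?_, fun x => ?_⟩
  · rw [Nat.card_eq_fintype_card, Fintype.card_prod, Fintype.card_fun, hF, Fintype.card_fin,
      Fintype.card_fin, ← pow_mul]
    have h1 : N ≤ 2 ^ ρ := by
      have : 4 * N = 2 ^ ρ := hN.symm.trans hF
      omega
    calc N * 2 ^ (ρ * 6) ≤ 2 ^ ρ * 2 ^ (ρ * 6) := Nat.mul_le_mul_right _ h1
      _ = 2 ^ (7 * ρ) := by
        rw [← pow_add]
        congr 1
        ring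
  · simp only [fold_blk]
    constructor
    · rintro ⟨j, hj⟩
      refine ⟨g.symm j, ?_⟩
      rw [Equiv.apply_symm_apply]
      exact hj
    · rintro ⟨ω, hω⟩
      exact ⟨g ω, hω⟩

end Pool.Agent.L0h90.LT2
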